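import Pool.Agent.H958R2.NLT.PolyRed
import Pool.Agent.H958R2.NLT.X13Hard
import Pool.Agent.H958R2.NLT.Mem

/-!
# The tournament neighbourhood list problem is NP-complete

The reduction is from exactly-one-in-three satisfiability.  The vertices fall into classes, which
are kept apart by a chain of marker vertices and a large block (three transitive parts in cyclic
order).  A variable is a class of three vertices with the lists `{0}, {1}, {2}`: the two cyclic
shifts are its only realisations.  A clause has a hub class of seven vertices, whose lists are
those of the Fano plane, and three classes of `21` vertices each, three-fold covers of the Fano
plane lists, one for each literal.  A three-fold cover has exactly three realisations compatible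
with the projections to the hub and to the class of the variable; they lie over three of the eight
realisations of the Fano plane lists by a tournament, and in exactly one of them the literal is
true.
-/

namespace Pool.Agent.Results.MP_398f0f_lc.NLTComplete

open Pool.Agent.NPC Pool.Agent.H958R2

/-- **NLT is NP-complete**: it is in `NP`, and every language in `NP` has a polynomial-time
many-one reduction to it. -/
theorem result : InNPP NLT ∧ NPHardP NLT :=
  ⟨H958NLT.inNPP_NLT, (H958NLT.hardI_NLT H958NLT.hardPr_X13).toNPHardP⟩

end Pool.Agent.Results.MP_398f0f_lc.NLTComplete
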